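import Mathlib
import Pool.Agent.Helper25.GG.Defs2

/-! Module GG-5: separators in contractions. -/

namespace Pool.Agent.Helper25.GG

theorem Sepr.contract {M : Matroid ℕ} {L C : Set ℕ} (hL : Sepr M L) (_hC : C ⊆ L) :
    Sepr (M.contract C) (L \ C) := by
  intro D hD hne
  obtain ⟨x, hxD, hxL, hxC⟩ := hne
  obtain ⟨D', hD', hDD', hD'C⟩ := hD.exists_subset_isCircuit_of_contract
  have h1 : D' ⊆ L := hL D' hD' ⟨x, hDD' hxD, hxL⟩
  intro y hy
  exact ⟨h1 (hDD' hy), (hD.subset_ground hy).2⟩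

theorem Sepr.sdiff {M : Matroid ℕ} {K L : Set ℕ} (hK : Sepr M K) (hL : Sepr M L) :
    Sepr M (K \ L) := by
  intro D hD hne
  obtain ⟨x, hxD, hxK, hxL⟩ := hne
  intro y hy
  refine ⟨hK D hD ⟨x, hxD, hxK⟩ hy, fun hyL => ?_⟩
  exact hxL (hL D hD ⟨y, hy, hyL⟩ hxD)

theorem Sepr.delete {M : Matroid ℕ} {A K D : Set ℕ} (hK : Sepr (M.contract A) K)
    (hDA : Disjoint D A) : Sepr ((M.delete D).contract A) K := by
  intro C hC hne
  rw [← Matroid.contract_delete_comm _ hDA.symm, Matroid.delete_isCircuit_iff] at hC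
  exact hK C hC.1 hne

theorem Sepr.of_restrict {M : Matroid ℕ} {L A K : Set ℕ} (hL : Sepr M L) (hLE : L ⊆ M.E)
    (hA : A ⊆ L) (hK : K ⊆ L \ A) (h : Sepr ((M.restrict L).contract A) K) :
    Sepr (M.contract A) K := by
  intro D hD hne
  obtain ⟨x, hxD, hxK⟩ := hne
  obtain ⟨D', hD', hDD', hD'C⟩ := hD.exists_subset_isCircuit_of_contract
  have h1 : D' ⊆ L := hL D' hD' ⟨x, hDD' hxD, (hK hxK).1⟩
  have h2 : D ⊆ L \ A := fun y hy => ⟨h1 (hDD' hy), (hD.subset_ground hy).2⟩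
  refine h D ?_ ⟨x, hxD, hxK⟩
  rw [Matroid.restrict_contract_eq_contract_restrict _ hA]
  have hR : L \ A ⊆ (M.contract A).E := fun y hy => ⟨hLE hy.1, hy.2⟩
  exact (Matroid.restrict_isCircuit_iff hR).2 ⟨hD, h2⟩

end Pool.Agent.Helper25.GG
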