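import Mathlib
import Pool.Agent.Helper25.GG.Defs2

/-! Module GG-9: pigeonhole for the signatures of pieces. -/

namespace Pool.Agent.Helper25.GG

open Classical in
/-- the signature of a piece, relative to a coding of the vertices of `A` -/
noncomputable def sigOf {H : Type} [Group H] (G : GGraph ℕ H) (A : Set ℕ) (a s : ℕ)
    (cd : ℕ → Fin (2 * a + 1)) (P : ℕ → ℕ → ℕ) (i : ℕ) :
    (Fin s → H) × (Fin s → Bool → Option (Fin (2 * a + 1))) ×
      (Fin s → Fin s → Bool → Bool → Prop) :=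
  (fun j => G.γ (P i j),
    fun j b => if G.en b (P i j) ∈ G.vs A then some (cd (G.en b (P i j))) else none,
    fun j j' b b' => G.en b (P i j) = G.en b' (P i j'))

theorem sig_sameSig {H : Type} [Group H] {G : GGraph ℕ H} {A : Set ℕ} {a s : ℕ}
    {cd : ℕ → Fin (2 * a + 1)} (hcd : Set.InjOn cd (G.vs A)) {P : ℕ → ℕ → ℕ} {i i' : ℕ}
    (h : sigOf G A a s cd P i = sigOf G A a s cd P i') : SameSig G A s P i i' := by
  classical
  unfold sigOf at h
  rw [Prod.mk.injEq, Prod.mk.injEq] at h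
  obtain ⟨h1, h2, h3⟩ := h
  refine ⟨fun j hj => ?_, fun j hj b hb => ?_, fun j hj j' hj' b b' => ?_⟩
  · exact congrFun h1 ⟨j, hj⟩
  · have h4 := congrFun (congrFun h2 ⟨j, hj⟩) b
    simp only at h4
    by_cases h5 : G.en b (P i j) ∈ G.vs A
    · rw [if_pos h5] at h4
      by_cases h6 : G.en b (P i' j) ∈ G.vs A
      · rw [if_pos h6] at h4
        exact hcd h5 h6 (Option.some.inj h4)
      · rw [if_neg h6] at h4
        exact absurd h4 (by simp)
    · rw [if_neg h5] at h4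
      by_cases h6 : G.en b (P i' j) ∈ G.vs A
      · rw [if_pos h6] at h4
        exact absurd h4 (by simp)
      · exact absurd hb (by tauto)
  · have h4 := congrFun (congrFun (congrFun (congrFun h3 ⟨j, hj⟩) ⟨j', hj'⟩) b) b'
    simp only at h4
    rw [h4]

theorem exists_code {H : Type} [Group H] (G : GGraph ℕ H) {A : Set ℕ} (hA : A.Finite) {a : ℕ}
    (ha : A.ncard ≤ a) : ∃ cd : ℕ → Fin (2 * a + 1), Set.InjOn cd (G.vs A) := by
  classical
  have hfin : (G.vs A).Finite := G.vs_finite hA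
  have hcard : (G.vs A).ncard ≤ 2 * a := by
    unfold GGraph.vs
    refine (Set.ncard_union_le _ _).trans ?_
    have h1 := Set.ncard_image_le (f := G.tl) hA
    have h2 := Set.ncard_image_le (f := G.hd) hA
    omega
  set F := hfin.toFinset with hF
  have hFc : F.card ≤ Fintype.card (Fin (2 * a + 1)) := by
    rw [Fintype.card_fin, hF, ← Set.ncard_eq_toFinset_card (G.vs A) hfin]
    omega
  obtain ⟨f⟩ := Function.Embedding.nonempty_of_card_le (α := F) (β := Fin (2 * a + 1))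
    (by rw [Fintype.card_coe]; exact hFc)
  refine ⟨fun v => if h : v ∈ F then f ⟨v, h⟩ else 0, ?_⟩
  intro v hv w hw hvw
  have hv' : v ∈ F := hfin.mem_toFinset.2 hv
  have hw' : w ∈ F := hfin.mem_toFinset.2 hw
  simp only [dif_pos hv', dif_pos hw'] at hvw
  have := f.injective hvw
  exact congrArg Subtype.val this

/-- one graph -/
theorem sig_one (H : Type) [Group H] [Finite H] (a s m : ℕ) : ∃ t : ℕ,
    ∀ I : Finset ℕ, t ≤ I.card →
    ∀ (G : GGraph ℕ H) (A : Set ℕ), A.Finite → A.ncard ≤ a → ∀ P : ℕ → ℕ → ℕ,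
    ∃ I' ⊆ I, m ≤ I'.card ∧ ∀ i ∈ I', ∀ i' ∈ I', SameSig G A s P i i' := by
  classical
  have : Fintype H := Fintype.ofFinite H
  let T := (Fin s → H) × (Fin s → Bool → Option (Fin (2 * a + 1))) ×
      (Fin s → Fin s → Bool → Bool → Prop)
  have hT : Fintype T := inferInstance
  refine ⟨Fintype.card T * m, fun I hI G A hA ha P => ?_⟩
  obtain ⟨cd, hcd⟩ := exists_code G hA ha
  have hne : (Finset.univ : Finset T).Nonempty :=
    ⟨(fun _ => 1, fun _ _ => none, fun _ _ _ _ => True), Finset.mem_univ _⟩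
  obtain ⟨y, -, hy⟩ := Finset.exists_le_card_fiber_of_mul_le_card_of_maps_to
    (s := I) (t := (Finset.univ : Finset T)) (f := fun i => sigOf G A a s cd P i) (n := m)
    (fun _ _ => Finset.mem_univ _) hne (by rw [Finset.card_univ]; exact hI)
  refine ⟨I.filter (fun i => sigOf G A a s cd P i = y), Finset.filter_subset _ _, hy, ?_⟩
  intro i hi i' hi'
  rw [Finset.mem_filter] at hi hi'
  exact sig_sameSig hcd (hi.2.trans hi'.2.symm)

theorem exists_sameSig (H : Type) [Group H] [Finite H] (a s n m : ℕ) : ∃ t : ℕ,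
    ∀ I : Finset ℕ, t ≤ I.card →
    ∀ (Gs : ℕ → GGraph ℕ H) (A : Set ℕ), A.Finite → A.ncard ≤ a → ∀ P : ℕ → ℕ → ℕ,
    ∃ I' ⊆ I, m ≤ I'.card ∧ ∀ i ∈ I', ∀ i' ∈ I', ∀ k < n, SameSig (Gs k) A s P i i' := by
  induction n with
  | zero =>
    exact ⟨m, fun I hI Gs A _ _ P => ⟨I, subset_rfl, hI, fun _ _ _ _ k hk =>
      absurd hk (Nat.not_lt_zero k)⟩⟩
  | succ n ih =>
    obtain ⟨t, ht⟩ := ih
    obtain ⟨t', ht'⟩ := sig_one H a s t
    refine ⟨t', fun I hI Gs A hA ha P => ?_⟩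
    obtain ⟨I₁, hI₁, hc₁, hs₁⟩ := ht' I hI (Gs n) A hA ha P
    obtain ⟨I₂, hI₂, hc₂, hs₂⟩ := ht I₁ hc₁ Gs A hA ha P
    refine ⟨I₂, hI₂.trans hI₁, hc₂, fun i hi i' hi' k hk => ?_⟩
    rcases Nat.lt_succ_iff_lt_or_eq.1 hk with h | h
    · exact hs₂ i hi i' hi' k h
    · rw [h]
      exact hs₁ i (hI₂ hi) i' (hI₂ hi')

end Pool.Agent.Helper25.GG
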