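import Mathlib
import Pool.Agent.Helper25.GG.Defs2
import Pool.Agent.Helper4.GG.Sep
import Pool.Agent.Helper22.GG.Circ

/-! Module GG-7: bounded-depth decompositions. -/

namespace Pool.Agent.Helper25.GG

variable {H : Type} [Group H]

theorem depth_DD_empty (c : ℕ) (G : GGraph ℕ H) (k p : ℕ) (ρ : ℕ → ℕ) : DD c G k p ρ ∅ := by
  cases k with
  | zero => exact rfl
  | succ k =>
    refine ⟨[], ?_, ?_, List.Pairwise.nil⟩
    · ext e
      simp
    · intro x hx
      simp at hx

omit [Group H] in
theorem depth_exists_rho (G : GGraph ℕ H) {C : Set ℕ} (hC : C.Finite) {c : ℕ}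
    (hcard : C.ncard ≤ c) (ρ : ℕ → ℕ) (p : ℕ) :
    ∃ ρ' : ℕ → ℕ, (∀ a < p, ρ' a = ρ a) ∧ G.vs C ⊆ ρ' '' Set.Iio (p + 2 * c) := by
  classical
  have hfin : (G.vs C).Finite := G.vs_finite hC
  have h2c : (G.vs C).ncard ≤ 2 * c := by
    unfold GGraph.vs
    refine (Set.ncard_union_le _ _).trans ?_
    have h1 := Set.ncard_image_le (f := G.tl) hC
    have h2 := Set.ncard_image_le (f := G.hd) hC
    omega
  set L := hfin.toFinset.toList with hL
  have hLlen : L.length ≤ 2 * c := by
    rw [hL, Finset.length_toList, ← Set.ncard_eq_toFinset_card (G.vs C) hfin]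
    exact h2c
  refine ⟨fun a => if a < p then ρ a else L.getD (a - p) 0, ?_, ?_⟩
  · intro a ha
    exact if_pos ha
  · intro v hv
    have hvL : v ∈ L := by
      rw [hL, Finset.mem_toList]
      exact hfin.mem_toFinset.2 hv
    obtain ⟨n, hn, hnv⟩ := List.getElem_of_mem hvL
    refine ⟨p + n, ?_, ?_⟩
    · rw [Set.mem_Iio]
      omega
    · have h1 : ¬ (p + n < p) := by omega
      simp only [if_neg h1]
      rw [show p + n - p = n by omega, List.getD_eq_getElem _ _ hn, hnv]

/-- put a new component in front of a decomposition of the rest -/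
theorem depth_cons {M : Matroid ℕ} {G : GGraph ℕ H} (hG : G.Opt M) {c k p : ℕ} {ρ : ℕ → ℕ}
    {A K L : Set ℕ} (hA : A ⊆ M.E) (hK : K ⊆ M.E \ A) (hLK : L ⊆ K)
    (hL : Sepr (M.contract A) L) (hAρ : G.vs A ⊆ ρ '' Set.Iio p)
    {C : Set ℕ} (hCL : C ⊆ L) (hCf : C.Finite) (hCc : C.ncard ≤ c) {ρ' : ℕ → ℕ}
    (hρ' : ∀ a < p, ρ' a = ρ a) (hCρ' : G.vs C ⊆ ρ' '' Set.Iio (p + 2 * c))
    (hrest : DD c G k (p + 2 * c) ρ' (L \ C)) (hDD : DD c G (k + 1) p ρ (K \ L)) :
    DD c G (k + 1) p ρ K := by
  obtain ⟨l, hl1, hl2, hl3⟩ := hDD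
  have hsub : ∀ y ∈ l, y.1 ∪ y.2.1 ⊆ K \ L := by
    intro y hy e he
    rw [hl1]
    exact ⟨y, hy, he⟩
  have hCuL : C ∪ L \ C = L := Set.union_sdiff_cancel hCL
  refine ⟨(C, L \ C, ρ') :: l, ?_, ?_, ?_⟩
  · ext e
    constructor
    · intro he
      by_cases heL : e ∈ L
      · refine ⟨(C, L \ C, ρ'), List.mem_cons_self, ?_⟩
        simp only
        rw [hCuL]
        exact heL
      · have h1 : e ∈ K \ L := ⟨he, heL⟩
        rw [hl1] at h1
        obtain ⟨y, hy, hey⟩ := h1
        exact ⟨y, List.mem_cons_of_mem _ hy, hey⟩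
    · rintro ⟨y, hy, hey⟩
      rcases List.mem_cons.1 hy with rfl | hy
      · simp only at hey
        rw [hCuL] at hey
        exact hLK hey
      · exact (hsub y hy hey).1
  · intro y hy
    rcases List.mem_cons.1 hy with rfl | hy
    · exact ⟨hCf, hCc, Set.disjoint_sdiff_right, hρ', hCρ', hrest⟩
    · exact hl2 y hy
  · rw [List.pairwise_cons]
    refine ⟨fun y hy => ?_, hl3⟩
    have h1 := hsub y hy
    simp only
    rw [hCuL]
    constructor
    · rw [Set.disjoint_left]
      intro e heL hey
      exact (h1 hey).2 heL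
    · intro v hv
      apply hAρ
      refine hG.2 A hA L (hLK.trans hK) hL ⟨hv.1, ?_⟩
      refine G.vs_mono ?_ hv.2
      intro e he
      have h2 := h1 he
      refine ⟨(hK h2.1).1, ?_⟩
      rintro (h3 | h3)
      · exact (hK h2.1).2 h3
      · exact h2.2 h3

theorem opt_dd {M : Matroid ℕ} {G : GGraph ℕ H} (hG : G.Opt M) {c : ℕ} (hc : 1 ≤ c) :
    ∀ k ≤ c, ∀ A ⊆ M.E, ∀ K ⊆ M.E \ A, Sepr (M.contract A) K →
      (∀ D, (M.contract A).IsCircuit D → D ⊆ K → D.ncard ≤ k) →
      ∀ (ρ : ℕ → ℕ) (p : ℕ), G.vs A ⊆ ρ '' Set.Iio p → DD c G (k + 1) p ρ K := by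
  have hME : M.E.Finite := hG.1.1
  intro k
  induction k using Nat.strong_induction_on with
  | _ k ihk =>
  intro hkc A hA
  -- inner induction on the size of `K`
  have inner : ∀ n : ℕ, ∀ K ⊆ M.E \ A, K.ncard ≤ n → Sepr (M.contract A) K →
      (∀ D, (M.contract A).IsCircuit D → D ⊆ K → D.ncard ≤ k) →
      ∀ (ρ : ℕ → ℕ) (p : ℕ), G.vs A ⊆ ρ '' Set.Iio p → DD c G (k + 1) p ρ K := by
    intro n
    induction n with
    | zero =>
      intro K hK hn _ _ ρ p _
      have hKf : K.Finite := hME.subset (hK.trans Set.sdiff_subset)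
      have : K = ∅ := by
        rw [← Set.ncard_eq_zero hKf]
        omega
      rw [this]
      exact depth_DD_empty c G _ _ _
    | succ n ihn =>
      intro K hK hn hSep hcirc ρ p hAρ
      have hKf : K.Finite := hME.subset (hK.trans Set.sdiff_subset)
      rcases Set.eq_empty_or_nonempty K with rfl | ⟨x, hx⟩
      · exact depth_DD_empty c G _ _ _
      have hMA : (M.contract A).E.Finite := hME.subset Set.sdiff_subset
      set L := comp (M.contract A) x with hLdef
      have hxL : x ∈ L := Or.inl rfl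
      have hLK : L ⊆ K := by
        rintro y (rfl | ⟨D, hD, hxD, hyD⟩)
        · exact hx
        · exact hSep D hD ⟨x, hxD, hx⟩ hyD
      have hLsep : Sepr (M.contract A) L := comp_sepr hMA x
      have hKL : DD c G (k + 1) p ρ (K \ L) := by
        refine ihn (K \ L) (Set.sdiff_subset.trans hK) ?_ (hSep.sdiff hLsep)
          (fun D hD hDK => hcirc D hD (hDK.trans Set.sdiff_subset)) ρ p hAρ
        have h1 : (K \ L).ncard < K.ncard := by
          apply Set.ncard_lt_ncard _ hKf
          refine ⟨Set.sdiff_subset, fun h => ?_⟩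
          exact (h hx).2 hxL
        omega
      by_cases hex : ∃ D, (M.contract A).IsCircuit D ∧ D ⊆ L
      · -- a circuit of maximal size
        have hLf : L.Finite := hKf.subset hLK
        obtain ⟨C, ⟨hC, hCL⟩, hCmax⟩ : ∃ C, ((M.contract A).IsCircuit C ∧ C ⊆ L) ∧
            ∀ X, ((M.contract A).IsCircuit X ∧ X ⊆ L) → X.ncard ≤ C.ncard := by
          have hfinS : {D | (M.contract A).IsCircuit D ∧ D ⊆ L}.Finite :=
            hLf.finite_subsets.subset fun D hD => hD.2
          obtain ⟨C, hC, hmax⟩ := Set.exists_max_image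
            {D | (M.contract A).IsCircuit D ∧ D ⊆ L} Set.ncard hfinS hex
          exact ⟨C, hC, fun X hX => hmax X hX⟩
        have hCf : C.Finite := hLf.subset hCL
        have hCk : C.ncard ≤ k := hcirc C hC (hCL.trans hLK)
        have hC1 : 1 ≤ C.ncard := by
          rw [Nat.one_le_iff_ne_zero, Ne, Set.ncard_eq_zero hCf]
          exact hC.nonempty.ne_empty
        obtain ⟨ρ', hρ', hCρ'⟩ := depth_exists_rho G hCf (hCk.trans hkc) ρ p
        obtain ⟨k', rfl⟩ : ∃ k', k = k' + 1 := ⟨k - 1, by omega⟩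
        have hrest : DD c G (k' + 1) (p + 2 * c) ρ' (L \ C) := by
          refine ihk k' (Nat.lt_succ_self k') (by omega) (A ∪ C) ?_ (L \ C) ?_ ?_ ?_ ρ'
            (p + 2 * c) ?_
          · exact Set.union_subset hA ((hCL.trans hLK).trans (hK.trans Set.sdiff_subset))
          · intro e he
            have h1 := hK (hLK he.1)
            refine ⟨h1.1, ?_⟩
            rintro (h2 | h2)
            · exact h1.2 h2
            · exact he.2 h2
          · rw [← Matroid.contract_contract]
            exact Sepr.contract hLsep hCL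
          · intro D hD hDL
            rw [← Matroid.contract_contract] at hD
            have h1 := drop hMA hC hCL (fun X hX hXL => hCmax X ⟨hX, hXL⟩) hD
              (hDL.trans Set.sdiff_subset)
            omega
          · rw [G.vs_union]
            refine Set.union_subset ?_ hCρ'
            intro v hv
            obtain ⟨a, ha, rfl⟩ := hAρ hv
            rw [Set.mem_Iio] at ha
            refine ⟨a, ?_, hρ' a ha⟩
            rw [Set.mem_Iio]
            omega
        exact depth_cons hG hA hK hLK hLsep hAρ hCL hCf (hCk.trans hkc) hρ' hCρ' hrest hKL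
      · -- `L` is a single element
        have hL1 : L = {x} := by
          apply Set.Subset.antisymm
          · intro y hy
            rcases id hy with h | ⟨D, hD, hxD, hyD⟩
            · exact h
            · exact absurd ⟨D, hD, hLsep D hD ⟨x, hxD, hxL⟩⟩ hex
          · intro y hy
            rw [Set.mem_singleton_iff.1 hy]
            exact hxL
        have hCf : ({x} : Set ℕ).Finite := Set.finite_singleton x
        have hCc : ({x} : Set ℕ).ncard ≤ c := by
          rw [Set.ncard_singleton]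
          exact hc
        obtain ⟨ρ', hρ', hCρ'⟩ := depth_exists_rho G hCf hCc ρ p
        have hrest : DD c G k (p + 2 * c) ρ' (L \ {x}) := by
          rw [hL1, Set.sdiff_self]
          exact depth_DD_empty c G _ _ _
        exact depth_cons hG hA hK hLK hLsep hAρ (by rw [hL1]) hCf hCc hρ' hCρ' hrest hKL
  intro K hK hSep hcirc ρ p hAρ
  exact inner K.ncard K hK le_rfl hSep hcirc ρ p hAρ

end Pool.Agent.Helper25.GG
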